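import Pool.Agent.H92ND.Y

/-!
# The New Doomsday Conjecture in almost all degrees of every Adams line

`Ext s` is the Adams `s`-line: the cohomology of the cobar complex of the mod 2 dual Steenrod algebra
`𝔽₂[ξ₁, ξ₂, …]`; `IsDeg s t y` says that `y ∈ Ext^{s,t}`; `sq0 s` is `Sq⁰`, `fam s j x = (Sq⁰)^j x`,
`x.Sq 1` is the operation `Sq¹` on cocycles (the cup-`(s-1)` square) and `hmul 0` the multiplication by
`h₀` (definitions in `Q171/ND3/Def.lean`, `Op.lean` and `Df.lean` of the library).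

For every `s ≥ 2` there are `J` and `C`, depending only on `s`, and a set `X` of exceptional numbers with
at most `C (n+1)^(s-2)` members below `2^n` for every `n`, such that

1. `Sq⁰ : Ext^{s,2^i t} → Ext^{s,2^(i+1) t}` is bijective for all `i ≥ J` and all `t`;
2. for all `i ≥ J` and all odd `t` the group `Ext^{s,2^i t}` has at most `C` elements;
3. the number of the odd numbers `t < 2^n` for which `Ext^{s,2^J t}` is not zero is at least
   `(n - C)^(s-1) / C` and at most `C (n+1)^(s-1)`;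
4. for all `i ≥ J`, all odd `t` outside `X` and every nonzero class `x ∈ Ext^{s,2^i t}` the class
   `h₀ Sq¹ x ∈ Ext^{s+2}` is not zero;
5. hence, if `d₂` satisfies Bruner's formula `d₂ (Sq⁰ x) = h₀ Sq¹ x` for the classes `x` of even
   internal degree (as the second Adams differential does), then for all odd `t` outside `X`, all `a`
   and all `x ∈ Ext^{s,2^a t}` the members `(Sq⁰)^j x` with `j > J` of the family of `x` which lie in
   the kernel of `d₂` are zero.

So the New Doomsday Conjecture holds on the `s`-line for all the `Sq⁰`-families in the degrees `2^a t`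
with odd `t` outside `X`, while of the odd numbers `t < 2^n` for which there are such families which do
not become zero, at least `(n - C)^(s-1) / C`, at most `C (n+1)^(s-2)` are in `X`.

The main step is a structure theorem: for every `c > 0` the products
`Ext^{q,N} ⊗ Ext^{s-q,c} → Ext^{s,N+c}` give an isomorphism of the sum over `1 ≤ q < s` to `Ext^{s,N+c}`
if `N > 0` is divisible by a sufficiently high power of two (depending on `s` and `c`).
-/

set_option autoImplicit false

namespace Pool.Agent.Results.MP_701abf_gt.AlmostAllDegrees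

open Pool.Agent.Q171.ND3.St Pool.Agent.H92ND

/-- For every `s ≥ 2` there are `J`, `C` and a set `X` with at most `C (n+1)^(s-2)` elements below `2^n`,
such that `Sq⁰` is bijective on the groups `Ext^{s,2^i t}` with `i ≥ J`, these groups have at most `C`
elements for odd `t`, the number of the odd `t < 2^n` with `Ext^{s,2^J t} ≠ 0` lies between
`(n - C)^(s-1) / C` and `C (n+1)^(s-1)`, and `h₀ Sq¹ x ≠ 0` for all `0 ≠ x ∈ Ext^{s,2^i t}`, `i ≥ J`,
`t` odd and not in `X`; if `d₂` satisfies Bruner's formula, no nonzero member `(Sq⁰)^j x`, `j > J`, of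
a family in these degrees is in the kernel of `d₂`. -/
theorem result (s : ℕ) (hs : 2 ≤ s) : ∃ (J C : ℕ) (X : Set ℕ),
    (∀ i t : ℕ, J ≤ i →
      Set.BijOn (sq0 s) {y | IsDeg s (2 ^ i * t) y} {y | IsDeg s (2 ^ (i + 1) * t) y}) ∧
    (∀ i t : ℕ, J ≤ i → Odd t →
      {y | IsDeg s (2 ^ i * t) y}.Finite ∧ {y | IsDeg s (2 ^ i * t) y}.ncard ≤ C) ∧
    (∀ n,
      (n - C) ^ (s - 1) ≤
        C * {t | Odd t ∧ t < 2 ^ n ∧ ∃ y, IsDeg s (2 ^ J * t) y ∧ y ≠ 0}.ncard ∧
      {t | Odd t ∧ t < 2 ^ n ∧ ∃ y, IsDeg s (2 ^ J * t) y ∧ y ≠ 0}.ncard ≤ C * (n + 1) ^ (s - 1)) ∧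
    (∀ n, {t | t ∈ X ∧ t < 2 ^ n}.ncard ≤ C * (n + 1) ^ (s - 2)) ∧
    (∀ i t : ℕ, J ≤ i → Odd t → t ∉ X → ∀ x : Cocycle s, IsHom (2 ^ i * t) x.val → x.cls ≠ 0 →
      hmul 0 (s + 1) (x.Sq 1).cls ≠ 0) ∧
    ∀ d₂ : (q : ℕ) → Ext q → Ext (q + 2),
      (∀ (q t : ℕ) (x : Cocycle q), Even t → IsHom t x.val →
        d₂ q (sq0 q x.cls) = hmul 0 (q + 1) (x.Sq 1).cls) →
      ∀ a t : ℕ, Odd t → t ∉ X → ∀ x : Ext s, IsDeg s (2 ^ a * t) x →
        ∀ j, J < j → d₂ s (fam s j x) = 0 → fam s j x = 0 :=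
  main2 s hs

end Pool.Agent.Results.MP_701abf_gt.AlmostAllDegrees
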