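import Pool.Agent.H92ND2.Fi

/-!
# `Sq⁰`-families which survive to the `E₄`-page are rare on all Adams lines `s ≥ 4`

`Ext s` is the Adams `s`-line: the cohomology of the cobar complex of the mod 2 dual Steenrod algebra
`𝔽₂[ξ₁, ξ₂, …]`; `IsDeg s t y` says that `y ∈ Ext^{s,t}`; `fam s j x = (Sq⁰)^j x`, `x.Sq k` is the
operation `Sq^k` on cocycles (the cup-`(s-k)` square) and `hmul 0` the multiplication by `h₀`
(definitions in `Q171/ND3/Def.lean`, `Op.lean` and `Df.lean` of the library). A term of `Diffs` is a pair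
of maps `d₂`, `d₃` with the following properties of the Adams differentials: `d₂` is additive, of degree
`(2, 1)`, `d₂ d₂ = 0`, `d₂ (h₀ y) = h₀ d₂ y`, and Bruner's formulas `d₂ (Sq⁰ x) = h₀ Sq¹ x` and
`d₃ (Sq⁰ Sq¹ x) = h₁ Sq² Sq¹ x` modulo the image of `d₂`, for classes `x` of even internal degree.

Let `s = r + 1 ≥ 4`. There are `J` and `C`, depending only on `s`, and a set `X` of exceptional numbers
with at most `C (n+1)^(s-3)` members below `2^n` for every `n`, such that

1. the number of the odd numbers `t < 2^n` for which `Ext^{s,2^J t}` is not zero is at least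
   `(n - C)^(s-1) / C`;
2. for all `i ≥ J`, all odd `t` outside `X` and every nonzero class `y ∈ Ext^{s,2^i t}` either the class
   `h₀ Sq¹ y` is not zero, or `y = Sq¹ x` for some `x ∈ Ext^{s-1,2^(i-1) t}` and none of the classes
   `(Sq⁰)^j (Sq² y)` is zero;
3. hence, for all maps `d₂`, `d₃` as above, all odd `t` outside `X`, all `a` and all
   `x ∈ Ext^{s,2^a t}` the members `(Sq⁰)^j x` with `j ≥ J` of the family of `x` which survive to the
   `E₄`-page (`d₂ = 0`, and `d₃ = 0` modulo the image of `d₂`) are zero.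

So on the lines `s ≥ 4` the New Doomsday Conjecture holds for all `Sq⁰`-families in the degrees `2^a t`
with odd `t` outside the set `X`, and `X` is smaller by the factor `n^2` than the set of the `t` for which
there are such families. Up to this set the classes with `h₀ Sq¹ y = 0` are the classes `Sq¹ x`, as the
classes `h_j^2 h_(k+1) + h_(j+1) h_k^2 = Sq¹ (h_j h_k)` on the 3-line, for which the conjecture is open;
but for `s ≥ 4` they support third differentials.
-/

set_option autoImplicit false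

namespace Pool.Agent.Results.MP_701abf_gt.SurvivorsToE4

open Pool.Agent.Q171.ND3.St Pool.Agent.H92ND

/-- Let `r ≥ 3`. There are `J`, `C` and a set `X` with at most `C (n+1)^(r-2)` elements below `2^n`, such
that at least `(n - C)^r / C` odd numbers `t < 2^n` have `Ext^{r+1,2^J t} ≠ 0`, and for odd `t` outside
`X` and `i ≥ J` every `0 ≠ y ∈ Ext^{r+1,2^i t}` satisfies `h₀ Sq¹ y ≠ 0`, or `y = Sq¹ x` and
`(Sq⁰)^j Sq² y ≠ 0` for all `j`; no nonzero member `(Sq⁰)^j x`, `j ≥ J`, of a family in the degrees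
`2^a t` survives to the `E₄`-page. -/
theorem result (r : ℕ) (hr : 3 ≤ r) : ∃ (J C : ℕ) (X : Set ℕ),
    (∀ n, (n - C) ^ r ≤
      C * {t | Odd t ∧ t < 2 ^ n ∧ ∃ y, IsDeg (r + 1) (2 ^ J * t) y ∧ y ≠ 0}.ncard) ∧
    (∀ n, {t | t ∈ X ∧ t < 2 ^ n}.ncard ≤ C * (n + 1) ^ (r - 2)) ∧
    (∀ i t : ℕ, J ≤ i → Odd t → t ∉ X → ∀ y : Cocycle (r + 1), IsHom (2 ^ i * t) y.val →
      y.cls ≠ 0 → hmul 0 (r + 2) (y.Sq 1).cls ≠ 0 ∨
        ∃ x : Cocycle r, IsHom (2 ^ (i - 1) * t) x.val ∧ y.cls = (x.Sq 1).cls ∧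
          ∀ j, fam (r + 3) j (y.Sq 2).cls ≠ 0) ∧
    ∀ (D : Diffs) (a t : ℕ), Odd t → t ∉ X → ∀ x : Ext (r + 1), IsDeg (r + 1) (2 ^ a * t) x →
      ∀ j, J ≤ j → D.Survives₄ (r + 1) (fam (r + 1) j x) → fam (r + 1) j x = 0 :=
  Two.main3 r hr

end Pool.Agent.Results.MP_701abf_gt.SurvivorsToE4
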